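import Mathlib
import Pool.Agent.Q90.TD.Lk
import Pool.Agent.Y346.CH.Diag

set_option autoImplicit false

/-!
# Tactical decompositions of symmetric designs into classes of equal size, and into classes with a
large common factor, on almost all numbers of points

There is a function `y` which tends to infinity such that all `v` outside a set of natural density
zero have the following property.  Let a tactical decomposition of a nontrivial symmetric design on
`v` points (`2 ≤ k ≤ v - 2`, `k` and `lam` arbitrary) have point classes of sizes `g * m i` and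
block classes of sizes `g' * m' j`, where the factors `g` and `g'` are arbitrary (for instance very
large), while all prime factors of the numbers `m i`, `m' j`, `∑ i, m i = v / g` and
`∑ j, m' j = v / g'` are at most `y v`.  Then there are as many point classes as block classes,
their number is `1` modulo `4`, and `(∑ i, m i) * ∏ i, m i` and `(∑ j, m' j) * ∏ j, m' j` are perfect
squares.

The case `m = 1`: if all point classes have the same size, all block classes have the same size, and
all prime factors of the number `t` of the classes are at most `y v`, then `t` is an odd perfect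
square.  So for almost all `v` no nontrivial symmetric design on `v` points has a tactical
decomposition into `t` classes of equal size with `2 ≤ t ≤ 8`.
-/

namespace Pool.Agent.Results.MP_3038d1_co.EqualClasses

open Filter Topology

/-- The blocks `B i` (`i : Fin v`) form a symmetric `(v, k, lam)` design on the points `Fin v`
with `2 ≤ k ≤ v - 2`. -/
structure IsDesign (v k lam : ℕ) (B : Fin v → Finset (Fin v)) : Prop where
  two_le : 2 ≤ k
  le : k + 2 ≤ v
  size : ∀ i, (B i).card = k
  pair : ∀ x y : Fin v, x ≠ y →
    (Finset.univ.filter (fun i => x ∈ B i ∧ y ∈ B i)).card = lam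

/-- The point classes `{x | c x = i}` and the block classes `{b | d b = j}` are nonempty and form a
tactical decomposition of the design with the blocks `B b`. -/
structure IsTactical {v s t : ℕ} (B : Fin v → Finset (Fin v)) (c : Fin v → Fin s)
    (d : Fin v → Fin t) : Prop where
  pointClasses : Function.Surjective c
  blockClasses : Function.Surjective d
  pointsOnBlocks : ∀ (i : Fin s) (b b' : Fin v), d b = d b' →
    Nat.card {x : Fin v // c x = i ∧ x ∈ B b} = Nat.card {x : Fin v // c x = i ∧ x ∈ B b'}
  blocksThroughPoints : ∀ (j : Fin t) (x x' : Fin v), c x = c x' →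
    Nat.card {b : Fin v // d b = j ∧ x ∈ B b} = Nat.card {b : Fin v // d b = j ∧ x' ∈ B b}

/-- all prime factors of `a` are at most `y` -/
def Smooth (y a : ℕ) : Prop := ∀ q : ℕ, q.Prime → q ∣ a → q ≤ y

/-- the property of the tactical decompositions of the design with the blocks `B b` -/
def Prop1 (y v : ℕ) (B : Fin v → Finset (Fin v)) : Prop :=
  ∀ (s t : ℕ) (c : Fin v → Fin s) (d : Fin v → Fin t) (g g' : ℕ) (m : Fin s → ℕ)
    (m' : Fin t → ℕ), IsTactical B c d →
    (∀ i, Nat.card {x : Fin v // c x = i} = g * m i) →
    (∀ j, Nat.card {b : Fin v // d b = j} = g' * m' j) →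
    (∀ i, Smooth y (m i)) → (∀ j, Smooth y (m' j)) → Smooth y (∑ i, m i) →
    Smooth y (∑ j, m' j) →
      s = t ∧ s % 4 = 1 ∧ IsSquare ((∑ i, m i) * ∏ i, m i) ∧
        IsSquare ((∑ j, m' j) * ∏ j, m' j)

/-- the property of the number `v` of points, for the bound `y` for the prime factors -/
def Good (y v : ℕ) : Prop :=
  ∀ (k lam : ℕ) (B : Fin v → Finset (Fin v)), IsDesign v k lam B → Prop1 y v B

theorem Smooth.mono {k l a : ℕ} (h : k ≤ l) (ha : Smooth k a) : Smooth l a :=
  fun q hq hd => (ha q hq hd).trans h

theorem good_mono {k l n : ℕ} (h : k ≤ l) (hn : Good l n) : Good k n := by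
  intro k' lam B hB s t c d g g' m m' hT h1 h2 h3 h4 h5 h6
  exact hn k' lam B hB s t c d g g' m m' hT h1 h2 (fun i => (h3 i).mono h)
    (fun j => (h4 j).mono h) (h5.mono h) (h6.mono h)

theorem card_compl' {v s : ℕ} (c : Fin v → Fin s) (i : Fin s) (A : Fin v → Prop) :
    Nat.card {x : Fin v // c x = i ∧ ¬ A x} =
      Nat.card {x : Fin v // c x = i} - Nat.card {x : Fin v // c x = i ∧ A x} := by
  classical
  simp only [Nat.card_eq_fintype_card, Fintype.card_subtype]
  have h : (Finset.univ.filter (fun x : Fin v => c x = i ∧ A x)).card +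
      (Finset.univ.filter (fun x : Fin v => c x = i ∧ ¬ A x)).card =
      (Finset.univ.filter (fun x : Fin v => c x = i)).card := by
    have h1 := Finset.card_filter_add_card_filter_not
      (s := Finset.univ.filter (fun x : Fin v => c x = i)) A
    rw [Finset.filter_filter, Finset.filter_filter] at h1
    exact h1
  omega

theorem tactical_compl {v s t : ℕ} {B : Fin v → Finset (Fin v)} {c : Fin v → Fin s}
    {d : Fin v → Fin t} (h : IsTactical B c d) : IsTactical (fun i => (B i)ᶜ) c d where
  pointClasses := h.pointClasses
  blockClasses := h.blockClasses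
  pointsOnBlocks := fun i b b' hb => by
    simp only [Finset.mem_compl]
    rw [card_compl' c i (fun x => x ∈ B b), card_compl' c i (fun x => x ∈ B b'),
      h.pointsOnBlocks i b b' hb]
  blocksThroughPoints := fun j x x' hx => by
    simp only [Finset.mem_compl]
    rw [card_compl' d j (fun b => x ∈ B b), card_compl' d j (fun b => x' ∈ B b),
      h.blocksThroughPoints j x x' hx]

open Pool.Agent.TH905.PC Pool.Agent.Q90.TD in
theorem prop_of {y v k lam : ℕ} {B : Fin v → Finset (Fin v)} (hv : 2 ≤ v) (hlam : 1 ≤ lam)
    (hB : SD v k lam B) {M' n' : ℕ} (hn : Lk y.factorial M' (k - lam) n' lam) :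
    Prop1 y v B := by
  classical
  intro s t c d g g' m m' hT h1 h2 h3 h4 h5 h6
  have : Nonempty (Fin v) := ⟨⟨0, by omega⟩⟩
  have D := des_of hv hlam hB.kv hB.size hB.pair
  have H : Half (fun (x : Fin v) (b : Fin v) => x ∈ B b) c d :=
    half_of hT.pointClasses hT.blockClasses hT.pointsOnBlocks
  have H' : Half (fun (b : Fin v) (x : Fin v) => x ∈ B b) d c :=
    half_of hT.blockClasses hT.pointClasses hT.blocksThroughPoints
  have hcard := card_eq_of H H' D (by omega)
  have hf : ∀ {a : ℕ}, Smooth y a → ∀ q : ℕ, q.Prime → q ∣ a → q ∣ y.factorial :=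
    fun ha q hq hd => Nat.dvd_factorial hq.pos (ha q hq hd)
  obtain ⟨h7, h8⟩ := tac_ratio_lk H hcard D hn (m := m) (m' := m')
    (fun i => by rw [← nat_card_cs, h1]) (fun j => by rw [← nat_card_cs, h2])
    (fun i => hf (h3 i)) (fun j => hf (h4 j)) (hf h5)
  obtain ⟨-, h10⟩ := tac_ratio_lk H' hcard.symm (des_dual D) hn (m := m') (m' := m)
    (fun j => by rw [← nat_card_cs, h2]) (fun i => by rw [← nat_card_cs, h1])
    (fun j => hf (h4 j)) (fun i => hf (h3 i)) (hf h6)
  rw [Fintype.card_fin] at h7 hcard
  rw [Fintype.card_fin] at hcard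
  exact ⟨hcard, h7, h8, h10⟩

/-- There is a function `y` which tends to infinity such that the set of all `v` without the
property `Good (y v) v` has natural density zero. -/
theorem result : ∃ y : ℕ → ℕ, Monotone y ∧ Tendsto y atTop atTop ∧
    Tendsto (fun X : ℕ => (({v : ℕ | v ≤ X ∧ ¬ Good (y v) v}.ncard : ℕ) : ℝ) / X)
      atTop (𝓝 0) := by
  apply Pool.Agent.Y346.CH.diagonal (fun y v => ¬ Good y v)
  · intro k l n hkl h1 h2
    exact h1 (good_mono hkl h2)
  · intro y
    have h : Pool.Agent.H634R3.AA.Small (fun v => ¬ Good y v) := by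
      refine (Pool.Agent.Q90.TD.small_C (Bad := fun v B => ¬ Prop1 y v B)
        (M := y.factorial) (Nat.factorial_ne_zero y) ?_ ?_).mono ?_
      · intro v B hB h
        apply hB
        intro s t c d g g' m m' hT
        exact h s t c d g g' m m' (tactical_compl hT)
      · intro v k lam B hv hlam hB M' n' hn h
        exact h (prop_of hv hlam hB hn)
      · intro v hv
        simp only [Good, not_forall] at hv
        obtain ⟨k, lam, B, hB, h⟩ := hv
        have := hB.le
        exact ⟨k, lam, B, hB.two_le, hB.le, ⟨by omega, hB.size, hB.pair⟩, h⟩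
    intro ε hε
    obtain ⟨N0, hN0⟩ := h ε hε
    exact eventually_atTop.2 ⟨N0, hN0⟩

end Pool.Agent.Results.MP_3038d1_co.EqualClasses
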