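import Pool.Agent.H114R2.Design
import Pool.Agent.Y342.ION.Final
import Pool.Agent.Y341.Had.Tower
import Pool.Agent.Q245.Yam.Field

/-!
# Symmetric designs from Hadamard matrices of order `4 (q + 2)`

There is a constant `C` such that for all natural numbers `n` and `t` and all prime powers `q` with
`q ≤ 2 ↑↑ n` (the power tower of `n` twos), `2 ^ C ^ (n + 1) ≤ t` and `2 ^ (t + 1) ∣ q + 3` the
following holds, with `m = (q + 2) r` for any `r ≥ 1` such that there is a Hadamard matrix of order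
`2 r` (for instance `r = 1`): there are a symmetric `(4 m - 1, 2 m - 1, m - 1)`-design and a
symmetric `(4 u², 2 u² - u, u² - u)`-design with `u = 2 m`; and if `4 m + 1` is a prime power then
for all `a` and `j`, with `(4 m + 1) ^ 2 ^ a = 2 h + 1 = P`, there is a symmetric design with the
parameters `(4 h² (1 + P² + ⋯ + P ^ (2 j)), P ^ (2 j) (2 h² + h), P ^ (2 j) (h² + h))`.
-/

set_option autoImplicit false

namespace Pool.Agent.Results.MP_3038d1_co.PrimePowerPlusTwoDesigns

/-- `B` lists the `v` blocks of a symmetric `(v, k, l)`-design on the point set `Fin v`: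
`k < v`, `0 < l`, every block has `k` points, every point is in `k` blocks, any two distinct points
are in exactly `l` common blocks (and any two distinct blocks have exactly `l` common points). -/
def IsSymmetricDesign (v k l : ℕ) (B : Fin v → Finset (Fin v)) : Prop :=
  k < v ∧ 0 < l ∧ (∀ i, (B i).card = k) ∧
  (∀ x, (Finset.univ.filter (fun i => x ∈ B i)).card = k) ∧
  (∀ x y, x ≠ y → (Finset.univ.filter (fun i => x ∈ B i ∧ y ∈ B i)).card = l) ∧
  (∀ i j, i ≠ j → (B i ∩ B j).card = l)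

theorem result : ∃ C : ℕ, ∀ n q t : ℕ, IsPrimePow q → q ≤ (fun x : ℕ => 2 ^ x)^[n] 1 →
    2 ^ C ^ (n + 1) ≤ t → 2 ^ (t + 1) ∣ q + 3 →
    ∀ r : ℕ, 0 < r →
      (r = 1 ∨ ∃ H : Matrix (Fin (2 * r)) (Fin (2 * r)) ℤ, (∀ i j, H i j = 1 ∨ H i j = -1) ∧
        H * H.transpose = ((2 * r : ℕ) : ℤ) • 1) →
    ∀ m : ℕ, m = (q + 2) * r →
      (∃ B, IsSymmetricDesign (4 * m - 1) (2 * m - 1) (m - 1) B) ∧
      (∃ B, IsSymmetricDesign (4 * (2 * m) ^ 2) (2 * (2 * m) ^ 2 - 2 * m)
        ((2 * m) ^ 2 - 2 * m) B) ∧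
      (IsPrimePow (4 * m + 1) → ∀ a j h P : ℕ, P = (4 * m + 1) ^ 2 ^ a → P = 2 * h + 1 →
        ∃ B, IsSymmetricDesign (4 * h ^ 2 * ∑ i ∈ Finset.range (j + 1), P ^ (2 * i))
          (P ^ (2 * j) * (2 * h ^ 2 + h)) (P ^ (2 * j) * (h ^ 2 + h)) B) := by
  obtain ⟨C, -, hC⟩ := Pool.Agent.Q245.Yam.main_yamada
  refine ⟨C, fun n q t hq hn ht hd r hr0 hr m hm => ?_⟩
  have hbase : Pool.Agent.TH394.HadOrder (4 * (q + 2)) := hC n q t hq hn ht hd
  have hm1 : 1 < m := by
    rw [hm]
    have : 2 ≤ q + 2 := by omega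
    nlinarith
  have hH : Pool.Agent.TH394.HadOrder (4 * m) := by
    rcases hr with rfl | hr
    · rw [hm, mul_one]; exact hbase
    · have h1 : Pool.Agent.TH394.HadOrder (2 * (2 * (q + 2))) := by
        have : 2 * (2 * (q + 2)) = 4 * (q + 2) := by ring
        rw [this]; exact hbase
      have h2 := Pool.Agent.Y341.Had.agayan h1 hr
      have h3 : 2 * (2 * (q + 2) * r) = 4 * m := by rw [hm]; ring
      rw [h3] at h2
      exact h2
  refine ⟨Pool.Agent.H114R2.hadDesign_of_had hm1 hH,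
    Pool.Agent.H114R2.menon_of_had (by omega) ?_, ?_⟩
  · have e : 2 * (2 * m) = 4 * m := by ring
    rw [e]
    exact hH
  · intro hQ a j h P hP hh
    have h4 : (4 * m + 1) % 4 = 1 := by omega
    have hH' : Pool.Agent.TH394.HadOrder (4 * m + 1 - 1) := by
      rw [Nat.add_sub_cancel]; exact hH
    have h1 := (Pool.Agent.Y341.Had.tower_pow hQ h4 a).1
    have h2 := Pool.Agent.Y341.Had.tower hQ h4 hH' a
    rw [← hP, hh] at h1 h2
    rw [hh]
    exact Pool.Agent.Y342.ION.ionin h1 h2 j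

end Pool.Agent.Results.MP_3038d1_co.PrimePowerPlusTwoDesigns
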