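import Mathlib
import Pool.Agent.W854.FA.Final

set_option autoImplicit false

/-!
# Primes dividing the orders of automorphism groups of symmetric designs on almost all numbers of
points

For all `v` outside a set of natural density zero, every nontrivial symmetric design on `v` points
(`2 ≤ k ≤ v - 2`, `k` and `lam` arbitrary) and every group `H` of automorphisms have the following
properties.

(1) Every prime divisor of the order of `H` divides the order of a point stabilizer.

(2) Let `L` be a common multiple of the orders of the point stabilizers, and `v = m * d` with `d`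
coprime to `L`.  Then the order of `H` divides `L * m`, and `H` has at least `d / L` orbits.

So only the trivial group acts semiregularly, and if all point stabilizers have order at most `S`
then the order of `H` is at most `S!` times the largest divisor of `v` all of whose prime factors
are at most `S`.

Proof.  For almost all `v` every automorphism of prime order `q`, where `q` divides `v`, fixes an odd
number of points (starting file `OddFixedPoints`), so it is in a point stabilizer.
-/

namespace Pool.Agent.Results.MP_3038d1_co.StabilizerPrimes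

open Filter Topology

/-- The blocks `B i` (`i : Fin v`) form a symmetric `(v, k, lam)` design on the points `Fin v`
with `2 ≤ k ≤ v - 2`. -/
structure IsDesign (v k lam : ℕ) (B : Fin v → Finset (Fin v)) : Prop where
  two_le : 2 ≤ k
  le : k + 2 ≤ v
  size : ∀ i, (B i).card = k
  pair : ∀ x y : Fin v, x ≠ y →
    (Finset.univ.filter (fun i => x ∈ B i ∧ y ∈ B i)).card = lam

/-- the property of the number `v` of points -/
def Good (v : ℕ) : Prop :=
  ∀ (k lam : ℕ) (B : Fin v → Finset (Fin v)) (H : Subgroup (Equiv.Perm (Fin v))),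
    IsDesign v k lam B → (∀ h ∈ H, ∀ i, ∃ j, (B i).image h = B j) →
      (∀ q : ℕ, q.Prime → q ∣ Nat.card H →
        ∃ x : Fin v, q ∣ Nat.card (MulAction.stabilizer H x)) ∧
      ∀ L m d : ℕ, 0 < L → (∀ x : Fin v, Nat.card (MulAction.stabilizer H x) ∣ L) →
        v = m * d → Nat.Coprime d L →
          Nat.card H ∣ L * m ∧ d ≤ L * Nat.card (MulAction.orbitRel.Quotient H (Fin v))

/-- counting orbits -/
theorem orbit_count {G X : Type} [Group G] [Finite G] [Finite X] [Nonempty X] [MulAction G X]
    {L : ℕ} (hL : 0 < L) (hS : ∀ x : X, Nat.card (MulAction.stabilizer G x) ∣ L) :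
    ∃ M : ℕ, 0 < M ∧ L * Nat.card X = Nat.card G * M ∧
      M ≤ L * Nat.card (MulAction.orbitRel.Quotient G X) := by
  classical
  have : Fintype G := Fintype.ofFinite G
  have : Fintype X := Fintype.ofFinite X
  have : Fintype (MulAction.orbitRel.Quotient G X) := Fintype.ofFinite _
  let m : MulAction.orbitRel.Quotient G X → ℕ :=
    fun ω => L / Nat.card (MulAction.stabilizer G ω.out)
  have hcard : Nat.card X = ∑ ω : MulAction.orbitRel.Quotient G X,
      Nat.card (MulAction.orbit G (ω.out : X)) := by
    rw [Nat.card_congr (MulAction.selfEquivSigmaOrbits G X), Nat.card_sigma]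
  have hm : ∀ ω : MulAction.orbitRel.Quotient G X,
      L * Nat.card (MulAction.orbit G (ω.out : X)) = Nat.card G * m ω := by
    intro ω
    have h1 : Nat.card (MulAction.orbit G (ω.out : X)) *
        Nat.card (MulAction.stabilizer G (ω.out : X)) = Nat.card G := by
      rw [← Nat.card_prod]
      exact Nat.card_congr (MulAction.orbitProdStabilizerEquivGroup G (ω.out : X))
    have h3 : L = Nat.card (MulAction.stabilizer G (ω.out : X)) * m ω :=
      (Nat.mul_div_cancel' (hS _)).symm
    calc L * Nat.card (MulAction.orbit G (ω.out : X))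
        = Nat.card (MulAction.stabilizer G (ω.out : X)) * m ω *
            Nat.card (MulAction.orbit G (ω.out : X)) := by rw [← h3]
      _ = Nat.card (MulAction.orbit G (ω.out : X)) *
            Nat.card (MulAction.stabilizer G (ω.out : X)) * m ω := by ring
      _ = _ := by rw [h1]
  have hsum : L * Nat.card X = Nat.card G * ∑ ω, m ω := by
    rw [hcard, Finset.mul_sum, Finset.mul_sum]
    exact Finset.sum_congr rfl fun ω _ => hm ω
  refine ⟨∑ ω, m ω, ?_, hsum, ?_⟩
  · apply Nat.pos_of_ne_zero
    intro h0
    rw [h0, mul_zero] at hsum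
    rcases Nat.mul_eq_zero.1 hsum with h9 | h9
    · exact hL.ne' h9
    · exact absurd h9 (Nat.card_pos (α := X)).ne'
  · calc ∑ ω, m ω ≤ ∑ _ω : MulAction.orbitRel.Quotient G X, L :=
          Finset.sum_le_sum fun ω _ => Nat.div_le_self _ _
      _ = L * Nat.card (MulAction.orbitRel.Quotient G X) := by
          rw [Finset.sum_const, Finset.card_univ, smul_eq_mul, Nat.card_eq_fintype_card, mul_comm]

theorem good_of {v : ℕ} (h : ¬ Pool.Agent.W854.FA.HasE 0 v) : Good v := by
  classical
  intro k lam B H hB haut
  have hv := hB.le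
  have : Nonempty (Fin v) := ⟨⟨0, by omega⟩⟩
  -- elements of prime order `q`, `q ∣ v`
  have key : ∀ q : ℕ, q.Prime → q ∣ v → q ∣ Nat.card H →
      ∃ x : Fin v, q ∣ Nat.card (MulAction.stabilizer H x) := by
    intro q hq hqv hqH
    have hF : Fact q.Prime := ⟨hq⟩
    obtain ⟨g, hg⟩ := exists_prime_orderOf_dvd_card' q hqH
    have hgq : g ^ q = 1 := by rw [← hg]; exact pow_orderOf_eq_one g
    by_contra hcon
    push Not at hcon
    apply h
    refine ⟨k, lam, B, (g : Equiv.Perm (Fin v)), q, 1, hB.two_le, hB.le,
      ⟨by omega, hB.size, hB.pair, haut _ g.2, hq, Or.inl hqv, ?_, ?_⟩⟩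
    · rw [pow_one, ← Subgroup.coe_pow, hgq, Subgroup.coe_one]
    · have h0 : (Finset.univ.filter (fun x : Fin v => (g : Equiv.Perm (Fin v)) x = x)) = ∅ := by
        rw [Finset.filter_eq_empty_iff]
        intro x _ hx
        have h1 : g • x = x := hx
        let k : MulAction.stabilizer H x := ⟨g, h1⟩
        have h2 : orderOf k = q := by
          rw [← hg, ← Subgroup.orderOf_coe]
        apply hcon x
        rw [← h2]
        exact orderOf_dvd_natCard k
      rw [h0]
      exact ⟨0, rfl⟩
  refine ⟨fun q hq hqH => ?_, fun L m d hL hS hmd hcop => ?_⟩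
  · by_cases hqv : q ∣ v
    · exact key q hq hqv hqH
    · by_contra hcon
      push Not at hcon
      let L : ℕ := ∏ x : Fin v, Nat.card (MulAction.stabilizer H x)
      have hL : 0 < L := Finset.prod_pos fun x _ => Nat.card_pos
      obtain ⟨M, -, hM, -⟩ := orbit_count (G := H) (X := Fin v) hL
        (fun x => Finset.dvd_prod_of_mem _ (Finset.mem_univ x))
      rw [Nat.card_eq_fintype_card (α := Fin v), Fintype.card_fin] at hM
      have h1 : q ∣ L * v := by
        rw [hM]
        exact hqH.mul_right M
      rcases (Nat.Prime.dvd_mul hq).1 h1 with h2 | h2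
      · obtain ⟨x, -, hx⟩ := (Prime.dvd_finsetProd_iff (Nat.prime_iff.1 hq) _).1 h2
        exact hcon x hx
      · exact hqv h2
  · obtain ⟨M, hM0, hM, hMt⟩ := orbit_count (G := H) (X := Fin v) hL hS
    rw [Nat.card_eq_fintype_card (α := Fin v), Fintype.card_fin] at hM
    have hc : Nat.Coprime d (Nat.card H) := by
      rw [Nat.coprime_iff_gcd_eq_one]
      by_contra hne
      obtain ⟨q, hq, hqd⟩ := Nat.exists_prime_and_dvd hne
      have h1 : q ∣ d := hqd.trans (Nat.gcd_dvd_left _ _)
      have h2 : q ∣ Nat.card H := hqd.trans (Nat.gcd_dvd_right _ _)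
      obtain ⟨x, hx⟩ := key q hq (h1.trans (by rw [hmd]; exact dvd_mul_left d m)) h2
      have h3 : q ∣ Nat.gcd d L := Nat.dvd_gcd h1 (hx.trans (hS x))
      rw [hcop] at h3
      exact hq.one_lt.ne' (Nat.dvd_one.1 h3)
    constructor
    · have h1 : Nat.card H ∣ L * m * d := by
        rw [mul_assoc, ← hmd]
        exact ⟨M, hM⟩
      exact hc.symm.dvd_of_dvd_mul_right h1
    · have h1 : d ∣ Nat.card H * M := by
        rw [← hM, hmd]
        exact ⟨L * m, by ring⟩
      exact (Nat.le_of_dvd hM0 (hc.dvd_of_dvd_mul_left h1)).trans hMt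

/-- The integers `v` without the property have natural density zero. -/
theorem result : Tendsto (fun X : ℕ => (({v : ℕ | v ≤ X ∧ ¬ Good v}.ncard : ℕ) : ℝ) / X)
    atTop (𝓝 0) := by
  have h := Pool.Agent.W854.FA.small_tendsto (Pool.Agent.W854.FA.small_E 0)
  refine squeeze_zero (fun N => by positivity) (fun N => ?_) h
  refine div_le_div_of_nonneg_right ?_ (Nat.cast_nonneg N)
  refine (Nat.cast_le (α := ℝ)).2 (Set.ncard_le_ncard ?_
    (Pool.Agent.H634R3.AA.fin_le N _))
  rintro v ⟨hv, hG⟩
  refine ⟨hv, ?_⟩
  by_contra hcon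
  exact hG (good_of hcon)

end Pool.Agent.Results.MP_3038d1_co.StabilizerPrimes
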