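import Mathlib
import Pool.Agent.Q90.TD.Lk
import Pool.Agent.Y346.CH.Diag

set_option autoImplicit false

/-!
# Tactical decompositions of symmetric designs on almost all numbers of points

A tactical decomposition of a symmetric `(v, k, lam)` design is a partition of its points and a
partition of its blocks such that the number of points of each point class on a block depends only
on the class of the block, and the number of blocks of each block class through a point depends
only on the class of the point.  No group is assumed; the orbits of a group of automorphisms are a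
special case.

There is a function `y` which tends to infinity such that all `v` outside a set of natural density
zero have the following property.  If all prime factors of the sizes of the classes of a tactical
decomposition of a nontrivial symmetric design on `v` points (`2 ≤ k ≤ v - 2`, `k` and `lam`
arbitrary) are at most `y v`, then there are as many point classes as block classes, their number is
`3` modulo `4`, and the product of the sizes of the point classes as well as the product of the
sizes of the block classes is a perfect square.
-/

namespace Pool.Agent.Results.MP_3038d1_co.TacticalDecompositions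

open Filter Topology

/-- The blocks `B i` (`i : Fin v`) form a symmetric `(v, k, lam)` design on the points `Fin v`
with `2 ≤ k ≤ v - 2`. -/
structure IsDesign (v k lam : ℕ) (B : Fin v → Finset (Fin v)) : Prop where
  two_le : 2 ≤ k
  le : k + 2 ≤ v
  size : ∀ i, (B i).card = k
  pair : ∀ x y : Fin v, x ≠ y →
    (Finset.univ.filter (fun i => x ∈ B i ∧ y ∈ B i)).card = lam

/-- The point classes `{x | c x = i}` and the block classes `{b | d b = j}` are nonempty and form a
tactical decomposition of the design with the blocks `B b`. -/
structure IsTactical {v s t : ℕ} (B : Fin v → Finset (Fin v)) (c : Fin v → Fin s)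
    (d : Fin v → Fin t) : Prop where
  pointClasses : Function.Surjective c
  blockClasses : Function.Surjective d
  pointsOnBlocks : ∀ (i : Fin s) (b b' : Fin v), d b = d b' →
    Nat.card {x : Fin v // c x = i ∧ x ∈ B b} = Nat.card {x : Fin v // c x = i ∧ x ∈ B b'}
  blocksThroughPoints : ∀ (j : Fin t) (x x' : Fin v), c x = c x' →
    Nat.card {b : Fin v // d b = j ∧ x ∈ B b} = Nat.card {b : Fin v // d b = j ∧ x' ∈ B b}

/-- the property of the tactical decompositions of the design with the blocks `B b` -/
def Prop1 (y v : ℕ) (B : Fin v → Finset (Fin v)) : Prop :=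
  ∀ (s t : ℕ) (c : Fin v → Fin s) (d : Fin v → Fin t), IsTactical B c d →
    (∀ i, ∀ q : ℕ, q.Prime → q ∣ Nat.card {x : Fin v // c x = i} → q ≤ y) →
    (∀ j, ∀ q : ℕ, q.Prime → q ∣ Nat.card {b : Fin v // d b = j} → q ≤ y) →
      s = t ∧ s % 4 = 3 ∧ IsSquare (∏ i, Nat.card {x : Fin v // c x = i}) ∧
        IsSquare (∏ j, Nat.card {b : Fin v // d b = j})

/-- the property of the number `v` of points, for the bound `y` for the prime factors -/
def Good (y v : ℕ) : Prop :=
  ∀ (k lam : ℕ) (B : Fin v → Finset (Fin v)), IsDesign v k lam B → Prop1 y v B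

theorem good_mono {k l n : ℕ} (h : k ≤ l) (hn : Good l n) : Good k n := by
  intro k' lam B hB s t c d hT h1 h2
  exact hn k' lam B hB s t c d hT (fun i q hq hd => (h1 i q hq hd).trans h)
    (fun j q hq hd => (h2 j q hq hd).trans h)

theorem card_compl' {v s : ℕ} (c : Fin v → Fin s) (i : Fin s) (A : Fin v → Prop) :
    Nat.card {x : Fin v // c x = i ∧ ¬ A x} =
      Nat.card {x : Fin v // c x = i} - Nat.card {x : Fin v // c x = i ∧ A x} := by
  classical
  simp only [Nat.card_eq_fintype_card, Fintype.card_subtype]
  have h : (Finset.univ.filter (fun x : Fin v => c x = i ∧ A x)).card +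
      (Finset.univ.filter (fun x : Fin v => c x = i ∧ ¬ A x)).card =
      (Finset.univ.filter (fun x : Fin v => c x = i)).card := by
    have h1 := Finset.card_filter_add_card_filter_not
      (s := Finset.univ.filter (fun x : Fin v => c x = i)) A
    rw [Finset.filter_filter, Finset.filter_filter] at h1
    exact h1
  omega

theorem tactical_compl {v s t : ℕ} {B : Fin v → Finset (Fin v)} {c : Fin v → Fin s}
    {d : Fin v → Fin t} (h : IsTactical B c d) : IsTactical (fun i => (B i)ᶜ) c d where
  pointClasses := h.pointClasses
  blockClasses := h.blockClasses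
  pointsOnBlocks := fun i b b' hb => by
    simp only [Finset.mem_compl]
    rw [card_compl' c i (fun x => x ∈ B b), card_compl' c i (fun x => x ∈ B b'),
      h.pointsOnBlocks i b b' hb]
  blocksThroughPoints := fun j x x' hx => by
    simp only [Finset.mem_compl]
    rw [card_compl' d j (fun b => x ∈ B b), card_compl' d j (fun b => x' ∈ B b),
      h.blocksThroughPoints j x x' hx]

open Pool.Agent.TH905.PC Pool.Agent.Q90.TD in
theorem prop_of {y v k lam : ℕ} {B : Fin v → Finset (Fin v)} (hv : 2 ≤ v) (hlam : 1 ≤ lam)
    (hB : SD v k lam B) {M' n' : ℕ} (hn : Lk y.factorial M' (k - lam) n' lam) :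
    Prop1 y v B := by
  classical
  intro s t c d hT h1 h2
  have : Nonempty (Fin v) := ⟨⟨0, by omega⟩⟩
  have D := des_of hv hlam hB.kv hB.size hB.pair
  have H : Half (fun (x : Fin v) (b : Fin v) => x ∈ B b) c d :=
    half_of hT.pointClasses hT.blockClasses hT.pointsOnBlocks
  have H' : Half (fun (b : Fin v) (x : Fin v) => x ∈ B b) d c :=
    half_of hT.blockClasses hT.pointClasses hT.blocksThroughPoints
  have hcard := card_eq_of H H' D (by omega)
  have f1 : ∀ i, ∀ q : ℕ, q.Prime → q ∣ cs c i → q ∣ y.factorial :=
    fun i q hq h => Nat.dvd_factorial hq.pos (h1 i q hq (by rwa [nat_card_cs]))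
  have f2 : ∀ j, ∀ q : ℕ, q.Prime → q ∣ cs d j → q ∣ y.factorial :=
    fun j q hq h => Nat.dvd_factorial hq.pos (h2 j q hq (by rwa [nat_card_cs]))
  obtain ⟨h3, h4⟩ := tac_smooth_lk H hcard D hn f1 f2
  obtain ⟨-, h6⟩ := tac_smooth_lk H' hcard.symm (des_dual D) hn f2 f1
  rw [Fintype.card_fin] at h3 hcard
  rw [Fintype.card_fin] at hcard
  simp only [nat_card_cs]
  exact ⟨hcard, h3, h4, h6⟩

/-- There is a function `y` which tends to infinity such that the set of all `v` without the
property `Good (y v) v` has natural density zero. -/
theorem result : ∃ y : ℕ → ℕ, Monotone y ∧ Tendsto y atTop atTop ∧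
    Tendsto (fun X : ℕ => (({v : ℕ | v ≤ X ∧ ¬ Good (y v) v}.ncard : ℕ) : ℝ) / X)
      atTop (𝓝 0) := by
  apply Pool.Agent.Y346.CH.diagonal (fun y v => ¬ Good y v)
  · intro k l n hkl h1 h2
    exact h1 (good_mono hkl h2)
  · intro y
    have h : Pool.Agent.H634R3.AA.Small (fun v => ¬ Good y v) := by
      refine (Pool.Agent.Q90.TD.small_C (Bad := fun v B => ¬ Prop1 y v B)
        (M := y.factorial) (Nat.factorial_ne_zero y) ?_ ?_).mono ?_
      · intro v B hB h
        apply hB
        intro s t c d hT
        exact h s t c d (tactical_compl hT)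
      · intro v k lam B hv hlam hB M' n' hn h
        exact h (prop_of hv hlam hB hn)
      · intro v hv
        simp only [Good, not_forall] at hv
        obtain ⟨k, lam, B, hB, h⟩ := hv
        have := hB.le
        exact ⟨k, lam, B, hB.two_le, hB.le, ⟨by omega, hB.size, hB.pair⟩, h⟩
    intro ε hε
    obtain ⟨N0, hN0⟩ := h ε hε
    exact eventually_atTop.2 ⟨N0, hN0⟩

end Pool.Agent.Results.MP_3038d1_co.TacticalDecompositions
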